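import Pool.Agent.H929.BW.Stm

/-!
# BW: the nodal steps, the start and the monotonicity, independence

`t_NODS : S_NODS`, `t_STARTS : S_STARTS`, `t_MONOS : S_MONOS`.
-/

set_option autoImplicit false

namespace Pool.Agent.H571.BW

open Finset Pool.Agent.TH3.IR Pool.Agent.Y55.Col Pool.Agent.H929.BW

/-- larger width -/
theorem good_mono {ι σ : Type} [Fintype ι] [Fintype σ] {w : ι → ℕ} {W W' : ℝ} {s : σ → ℝ}
    (h : SAsm.Good w W s) (hW : W ≤ W') : SAsm.Good w W' s :=
  fun L R μ ν hμ hν h1 h2 => h L R μ ν hμ hν (hW.trans h1) h2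

/-- iteration of the nodal step over the coordinates outside `T` -/
theorem iter {ι : Type} [Fintype ι] {n : ℕ} {w : ι → ℕ} {ρ β X : ℝ} (hρ : 2 ≤ ρ) (hβ : 0 < β)
    (H : SAsm.Good w (ρ ^ n * X - 2 * (n + 1) * ρ ^ (n + 1) * β)
      (fun _ : Fin n => ρ ^ (n + 1) * β)) (c : ℕ) :
    ∀ T : Finset (Fin n), T.card + c = n → 5 / 2 ≤ ρ ^ T.card * β →
      SAsm.Good w (ρ ^ T.card * X - 2 * (T.card + 1) * ρ ^ (T.card + 1) * β)
        (fun i : Fin n => if i ∈ T then ρ ^ (T.card + 1) * β else ρ ^ T.card * β) := by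
  have hρ0 : 0 < ρ := by linarith
  induction c with
  | zero =>
    intro T hT _
    have hTu : T = univ := (Finset.card_eq_iff_eq_univ T).1 (by rw [Fintype.card_fin]; omega)
    have hTc : T.card = n := by omega
    intro L R μ ν hμ hν hW hs
    apply H L R μ ν hμ hν
    · rw [hTc] at hW
      exact hW
    · intro i
      have hi : i ∈ T := by rw [hTu]; exact mem_univ i
      rw [hs]
      simp only [if_pos hi, hTc]
  | succ c ih =>
    intro T hT h52
    obtain ⟨j, hj⟩ : ∃ j, j ∉ T := by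
      by_contra hcon
      push Not at hcon
      have : T = univ := Finset.eq_univ_iff_forall.2 hcon
      rw [this, Finset.card_univ, Fintype.card_fin] at hT
      omega
    have hc : (insert j T).card = T.card + 1 := Finset.card_insert_of_notMem hj
    have h52' : 5 / 2 ≤ ρ ^ (insert j T).card * β := by
      rw [hc, pow_succ]
      nlinarith
    have ih' := ih (insert j T) (by omega) h52'
    apply SAsm.nodal (ρ := ρ) _ j _ hρ
    · intro L R μ ν hμ hν hW hs
      apply ih' L R μ ν hμ hν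
      · refine le_trans ?_ hW
        rw [hc, if_neg hj]
        push_cast
        have e : ρ * (ρ ^ T.card * X - 2 * (T.card + 1) * ρ ^ (T.card + 1) * β) -
            ρ * (ρ ^ T.card * β) - ρ / 2 - ρ ^ 2 * (ρ ^ T.card * β) -
            (ρ ^ (T.card + 1) * X - 2 * (T.card + 1 + 1) * ρ ^ (T.card + 1 + 1) * β) =
            (ρ ^ T.card * β) * (ρ * (ρ - 1)) - ρ / 2 := by ring
        have h1 : 5 / 2 * (ρ * (ρ - 1)) ≤ (ρ ^ T.card * β) * (ρ * (ρ - 1)) :=
          mul_le_mul_of_nonneg_right h52 (by nlinarith)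
        have h2 : ρ / 2 ≤ 5 / 2 * (ρ * (ρ - 1)) := by nlinarith
        linarith
      · intro i
        rw [hs, hc]
        by_cases hi : i = j
        · subst hi
          simp only [Function.update_self, if_neg hj, if_pos (Finset.mem_insert_self i T)]
          ring
        · simp only [Function.update_of_ne hi]
          by_cases hiT : i ∈ T
          · simp only [if_pos hiT, if_pos (Finset.mem_insert_of_mem hiT)]
            ring
          · have hiT' : i ∉ insert j T := by rw [Finset.mem_insert]; tauto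
            simp only [if_neg hiT, if_neg hiT']
            ring
    · intro i
      split_ifs <;> positivity
    · rw [if_neg hj]
      exact h52

theorem t_NODS : S_NODS := by
  intro ι _ n w β H ρ hρ hβ h
  have hρ0 : 0 < ρ := by linarith
  have hβ0 : 0 < β := by linarith
  have h1 : SAsm.Good w (ρ ^ n * (β * H) - 2 * (n + 1) * ρ ^ (n + 1) * β)
      (fun _ : Fin n => ρ ^ (n + 1) * β) := by
    refine good_mono (h : SAsm.Good w (ρ ^ (n + 1) * β * (H / ρ - 2 * (n + 1)))
      (fun _ : Fin n => ρ ^ (n + 1) * β)) (le_of_eq ?_)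
    have e : ρ ^ (n + 1) * β * (H / ρ - 2 * (n + 1)) =
        ρ ^ n * (β * (H / ρ * ρ)) - 2 * (n + 1) * ρ ^ (n + 1) * β := by ring
    rw [e, div_mul_cancel₀ _ hρ0.ne']
  have h2 := iter (X := β * H) hρ hβ0 h1 n ∅ (by simp) (by simpa using hβ)
  intro L R μ ν hμ hν hW hs
  apply h2 L R μ ν hμ hν
  · refine le_trans ?_ hW
    have : 0 ≤ ρ * β := by positivity
    simp only [Finset.card_empty, pow_zero, one_mul, Nat.cast_zero, zero_add, pow_one, mul_one]
    nlinarith
  · intro i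
    rw [hs]
    simp

theorem t_STARTS : S_STARTS := by
  classical
  intro ι _ n w d hn h
  obtain ⟨j⟩ : Nonempty (Fin n) := ⟨⟨0, hn⟩⟩
  have h1 : SAsm.Good w ((3 : ℝ) ^ n * (d : ℝ) - 2 * (n + 1) * 3 ^ (n + 1) * 1)
      (fun _ : Fin n => (3 : ℝ) ^ (n + 1) * 1) := by
    intro L R μ ν hμ hν hW hs
    refine (h : SAsm.Good w ((3 : ℝ) ^ (n + 1) * ((d : ℝ) / 3 - 2 * (n + 1)))
      (fun _ : Fin n => (3 : ℝ) ^ (n + 1))) L R μ ν hμ hν ?_ (fun i => by rw [hs, mul_one])
    refine le_trans (le_of_eq ?_) hW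
    ring
  have h2 := iter (X := (d : ℝ)) (by norm_num) one_pos h1 (n - 1) {j}
    (by rw [Finset.card_singleton]; omega) (by rw [Finset.card_singleton]; norm_num)
  apply SAsm.cubic d j (ρ := 3) (le_refl _)
  intro L R μ ν hμ hν hW hs
  apply h2 L R μ ν hμ hν
  · refine le_trans ?_ hW
    rw [Finset.card_singleton]
    push_cast
    linarith
  · intro i
    rw [hs, Finset.card_singleton]
    by_cases hi : i = j
    · subst hi
      simp only [Function.update_self, if_pos (Finset.mem_singleton_self i)]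
      norm_num
    · have hi' : i ∉ ({j} : Finset (Fin n)) := by rw [Finset.mem_singleton]; exact hi
      simp only [Function.update_of_ne hi, if_neg hi', pow_one, mul_one]

theorem t_MONOS : S_MONOS := by
  intro ι _ n w a a' H ha haa' hH h L R μ ν hμ hν hW hs
  have ha0 : 0 < a := by linarith
  have ha'0 : 0 < a' := by linarith
  obtain ⟨H1, hH1⟩ : ∃ H1 : ℝ, H1 = (R - L) / a' := ⟨_, rfl⟩
  have e1 : a' * H1 = R - L := by
    rw [hH1]
    field_simp
  have hHH1 : H ≤ H1 := by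
    rw [hH1, le_div_iff₀ ha'0]
    linarith
  have hreg : SurS w (RegS L (L + a * H1) (fun i : Fin n => μ i - ⌊μ i⌋)
      (fun i => a - (μ i - ⌊μ i⌋))) := by
    apply h
    · intro i
      have := Int.floor_le (μ i)
      linarith
    · intro i
      have := Int.lt_floor_add_one (μ i)
      linarith
    · have : a * H ≤ a * H1 := mul_le_mul_of_nonneg_left hHH1 ha0.le
      linarith
    · intro i
      ring
  refine hreg.comap 1 (Or.inl rfl) (fun i => -⌊μ i⌋) 0 ?_
  rintro ⟨x, y⟩ ⟨hy, h1, h2⟩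
  simp only at hy h1 h2
  have e2 : ((1 * (x - ∑ i, -⌊μ i⌋ * y i - 0) : ℤ) : ℝ) = x + ∑ i, (⌊μ i⌋ : ℝ) * (y i : ℝ) := by
    push_cast
    simp only [neg_mul, Finset.sum_neg_distrib]
    ring
  have e3 : ∑ i, (μ i - (⌊μ i⌋ : ℝ)) * (y i : ℝ) =
      ∑ i, μ i * (y i : ℝ) - ∑ i, (⌊μ i⌋ : ℝ) * (y i : ℝ) := by
    rw [← Finset.sum_sub_distrib]
    exact Finset.sum_congr rfl fun i _ => by ring
  have e4 : ∑ i, (a - (μ i - (⌊μ i⌋ : ℝ))) * (y i : ℝ) =
      a * ∑ i, (y i : ℝ) - (∑ i, μ i * (y i : ℝ) - ∑ i, (⌊μ i⌋ : ℝ) * (y i : ℝ)) := by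
    rw [Finset.mul_sum, ← Finset.sum_sub_distrib, ← Finset.sum_sub_distrib]
    exact Finset.sum_congr rfl fun i _ => by ring
  have e5 : ∑ i, ν i * (y i : ℝ) = a' * ∑ i, (y i : ℝ) - ∑ i, μ i * (y i : ℝ) := by
    rw [Finset.mul_sum, ← Finset.sum_sub_distrib]
    refine Finset.sum_congr rfl fun i _ => ?_
    have h0 : μ i + ν i = a' := hs i
    rw [← h0]
    ring
  rw [e3] at h1
  rw [e4] at h2
  have h3 : a * ∑ i, (y i : ℝ) ≤ a * H1 := by linarith
  have h4 : ∑ i, (y i : ℝ) ≤ H1 := le_of_mul_le_mul_left h3 ha0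
  have h5 : 0 ≤ (a' - a) * (H1 - ∑ i, (y i : ℝ)) :=
    mul_nonneg (by linarith) (by linarith)
  refine ⟨hy, ?_, ?_⟩
  · show L + ∑ i, μ i * (y i : ℝ) ≤ ((1 * (x - ∑ i, -⌊μ i⌋ * y i - 0) : ℤ) : ℝ)
    rw [e2]
    linarith
  · show ((1 * (x - ∑ i, -⌊μ i⌋ * y i - 0) : ℤ) : ℝ) ≤ R - ∑ i, ν i * (y i : ℝ)
    rw [e2, e5]
    nlinarith

end Pool.Agent.H571.BW
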